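import Pool.Agent.helper76.OB.CBB

set_option autoImplicit false

namespace Pool.Agent.OB

open Finset

theorem CBA : CBA_stmt := by
  classical
  intro h
  refine ⟨(2 * h * h ^ 2) ^ h, fun A hA => ?_⟩
  have key : ∀ j : ℕ, j < h → ∀ c : Fin j → ℤ, Cf h c → ∀ n : ℤ,
      (RP c n A).card ≤ (2 * h * h ^ 2) ^ j := by
    intro j
    induction j with
    | zero =>
      intro _ c _ n
      rw [pow_zero]
      exact Finset.card_le_one_of_subsingleton _
    | succ j ih =>
      intro hj c hc n
      have h1 := CBB_step j A ((2 * h * h ^ 2) ^ j) (2 * h) (by omega) c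
        (fun i n' => ih (by omega) _ (fun k => hc _) n') n
        (hA (j + 1) c (by omega) hj hc n)
      refine h1.trans ?_
      have h2 : (j + 1) ^ 2 ≤ h ^ 2 := Nat.pow_le_pow_left (by omega) 2
      calc 2 * h * (j + 1) ^ 2 * (2 * h * h ^ 2) ^ j
          ≤ 2 * h * h ^ 2 * (2 * h * h ^ 2) ^ j := by gcongr
        _ = (2 * h * h ^ 2) ^ (j + 1) := by ring
  intro j c hj hc n
  refine (key j hj c hc n).trans ?_
  exact Nat.pow_le_pow_right (by
    have : 0 < h := by omega
    positivity) hj.le

end Pool.Agent.OB
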