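import Pool.Agent.helper38.OB.Spec

set_option autoImplicit false

namespace Pool.Agent.OB

open Finset

theorem CBB_mem {j : ℕ} (c : Fin j → ℤ) (t : ℤ) (V : Finset ℕ) (x : Fin j → ℕ) :
    x ∈ RP c t V ↔ (∀ i, x i ∈ V) ∧ Function.Injective x ∧ lf c x = t := by
  unfold RP RQ Inj
  simp only [Finset.mem_filter, Fintype.mem_piFinset]
  tauto

theorem CBB_fib (m : ℕ) (A : Finset ℕ) (K : ℕ) (c : Fin (m + 1) → ℤ)
    (hK : ∀ i : Fin (m + 1), ∀ n : ℤ, (RP (fun k => c (i.succAbove k)) n A).card ≤ K)
    (t : ℤ) (i : Fin (m + 1)) (y : ℕ) :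
    ((RP c t A).filter fun x => x i = y).card ≤ K := by
  classical
  refine le_trans ?_ (hK i (t - c i * (y : ℤ)))
  refine Finset.card_le_card_of_injOn (fun x k => x (i.succAbove k)) ?_ ?_
  · intro x hx
    rw [Finset.mem_coe, Finset.mem_filter, CBB_mem] at hx
    obtain ⟨⟨h1, h2, h3⟩, h4⟩ := hx
    rw [Finset.mem_coe, CBB_mem]
    refine ⟨fun k => h1 _, ?_, ?_⟩
    · intro a b hab
      exact Fin.succAbove_right_injective (h2 hab)
    · unfold lf at h3 ⊢
      rw [Fin.sum_univ_succAbove _ i, h4] at h3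
      linarith
  · intro x hx x' hx' hxx
    rw [Finset.mem_coe, Finset.mem_filter] at hx hx'
    funext k
    rcases Fin.eq_self_or_eq_succAbove i k with h | ⟨k', h⟩
    · rw [h, hx.2, hx'.2]
    · rw [h]
      exact congrFun hxx k'

theorem CBB_step (m : ℕ) (A : Finset ℕ) (K s : ℕ) (hs : 1 ≤ s) (c : Fin (m + 1) → ℤ)
    (hK : ∀ i : Fin (m + 1), ∀ n : ℤ, (RP (fun k => c (i.succAbove k)) n A).card ≤ K)
    (t : ℤ) (hN : NoDisj A c t s) : (RP c t A).card ≤ s * (m + 1) ^ 2 * K := by
  classical
  set F : Finset (Finset (Fin (m + 1) → ℕ)) := (RP c t A).powerset.filter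
    (fun G => ∀ x ∈ G, ∀ y ∈ G, x ≠ y → Disjoint (im x) (im y)) with hF
  have hne : F.Nonempty := ⟨∅, by simp [hF]⟩
  obtain ⟨G, hG, hmax⟩ := Finset.exists_max_image F Finset.card hne
  rw [hF, Finset.mem_filter, Finset.mem_powerset] at hG
  obtain ⟨hG1, hG2⟩ := hG
  have hGs : G.card < s := by
    by_contra hcon
    push Not at hcon
    obtain ⟨G', hG', hc⟩ := Finset.exists_subset_card_eq hcon
    exact hN ⟨G', hG'.trans hG1, hc, fun x hx y hy => hG2 x (hG' hx) y (hG' hy)⟩
  set W : Finset ℕ := G.biUnion im with hW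
  have hWc : W.card ≤ s * (m + 1) := by
    have h1 : W.card ≤ G.card * (m + 1) := by
      refine Finset.card_biUnion_le_card_mul _ _ _ fun x _ => ?_
      unfold im
      refine Finset.card_image_le.trans ?_
      simp
    exact h1.trans (Nat.mul_le_mul_right _ hGs.le)
  have hcov : ∀ x ∈ RP c t A, ∃ i, x i ∈ W := by
    intro x hx
    by_contra hcon
    push Not at hcon
    have hdis : ∀ y ∈ G, Disjoint (im x) (im y) := by
      intro y hy
      rw [Finset.disjoint_left]
      intro a ha hay
      unfold im at ha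
      rw [Finset.mem_image] at ha
      obtain ⟨i, _, rfl⟩ := ha
      exact hcon i (Finset.mem_biUnion.2 ⟨y, hy, hay⟩)
    have hxG : x ∉ G := by
      intro hxG
      refine hcon 0 (Finset.mem_biUnion.2 ⟨x, hxG, ?_⟩)
      unfold im
      exact Finset.mem_image_of_mem _ (Finset.mem_univ _)
    have hin : insert x G ∈ F := by
      rw [hF, Finset.mem_filter, Finset.mem_powerset]
      refine ⟨Finset.insert_subset hx hG1, ?_⟩
      intro a ha b hb hab
      rw [Finset.mem_insert] at ha hb
      rcases ha with rfl | ha <;> rcases hb with rfl | hb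
      · exact absurd rfl hab
      · exact hdis b hb
      · exact (hdis a ha).symm
      · exact hG2 a ha b hb hab
    have := hmax _ hin
    rw [Finset.card_insert_of_notMem hxG] at this
    omega
  have hsub : RP c t A ⊆ ((Finset.univ : Finset (Fin (m + 1))) ×ˢ W).biUnion
      (fun p => (RP c t A).filter fun x => x p.1 = p.2) := by
    intro x hx
    obtain ⟨i, hi⟩ := hcov x hx
    rw [Finset.mem_biUnion]
    exact ⟨(i, x i), Finset.mem_product.2 ⟨Finset.mem_univ _, hi⟩,
      Finset.mem_filter.2 ⟨hx, rfl⟩⟩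
  refine (Finset.card_le_card hsub).trans ?_
  refine (Finset.card_biUnion_le_card_mul _ _ K
    (fun p _ => CBB_fib m A K c hK t p.1 p.2)).trans ?_
  rw [Finset.card_product, Finset.card_univ, Fintype.card_fin]
  calc (m + 1) * W.card * K ≤ (m + 1) * (s * (m + 1)) * K := by gcongr
    _ = s * (m + 1) ^ 2 * K := by ring

theorem CBB : CBB_stmt := by
  intro m A K s hs hK e he t hN
  refine CBB_step m A K s hs e (fun i n => hK _ (fun k => ?_) n) t hN
  rcases he (i.succAbove k) with h | h
  · constructor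
    · rw [h]; norm_num
    · rw [h]; push_cast; simp
  · constructor
    · rw [h]; norm_num
    · rw [h]; push_cast; simp

end Pool.Agent.OB
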